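import Pool.Agent.H1.YdC

set_option autoImplicit false

namespace Pool.Agent.Results.MP_a8a68c_co.Yes

open Pool.Agent.H1.YdA Pool.Agent.H1.YdB Pool.Agent.H1.YdC

theorem result : ∃ 𝓕 𝓖 : Set (Setoid (Fin (11 * 23))),
    Youden 11 23 𝓕 𝓖 ∧ 𝓕.ncard = 3 ∧ 𝓖.ncard = 3 := by
  refine ⟨_, _, youden, Set.ncard_eq_three.2 ⟨_, _, _, ?_, ?_, ?_, rfl⟩,
    Set.ncard_eq_three.2 ⟨_, _, _, ?_, ?_, ?_, rfl⟩⟩
  · exact ker_ne 0 23 (by decide +kernel) (by decide +kernel)
  · exact ker_ne 0 23 (by decide +kernel) (by decide +kernel)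
  · exact ker_ne 0 33 (by decide +kernel) (by decide +kernel)
  · exact ker_ne 0 1 (by decide +kernel) (by decide +kernel)
  · exact ker_ne 0 1 (by decide +kernel) (by decide +kernel)
  · exact ker_ne 1 13 (by decide +kernel) (by decide +kernel)

end Pool.Agent.Results.MP_a8a68c_co.Yes
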